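import Mathlib
import Pool.Agent.MP_8ca5b0_lc.Defs
import Pool.Agent.MP_8ca5b0_lc.Mg.Exists

namespace Pool.Agent.Results.MP_8ca5b0_lc.Convex

open MeasureTheory Pool.Agent.MP_8ca5b0_lc

/-- Convex combinations of Kolmogorov random measures are Kolmogorov random. -/
theorem result (U : List Bool →. List Bool) (hU : IsOptimal U)
    (μ ν : Measure (ℕ → Bool)) [IsProbabilityMeasure μ] [IsProbabilityMeasure ν]
    (hμ : KolmogorovRandom U μ) (hν : KolmogorovRandom U ν) (t : ℝ) (h0 : 0 ≤ t) (h1 : t ≤ 1) :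
    KolmogorovRandom U (ENNReal.ofReal t • μ + ENNReal.ofReal (1 - t) • ν) :=
  convex_random hU μ ν h0 h1 hμ hν

end Pool.Agent.Results.MP_8ca5b0_lc.Convex
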